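import Pool.Agent.W221.NS.Stm

open MeasureTheory Set Metric
open scoped ContDiff

namespace Pool.Agent.W386.MD

open H459R3.NS W221.NS

lemma cd_comp {v : V → V} (hv : ContDiff ℝ ∞ v) (i : Fin 3) : ContDiff ℝ ∞ (fun y => v y i) :=
  contDiff_pi.1 hv i

lemma cd_pd {f : V → ℝ} (hf : ContDiff ℝ ∞ f) (j : Fin 3) : ContDiff ℝ ∞ (pd j f) := by
  unfold pd
  exact (hf.fderiv_right (by simp)).clm_apply contDiff_const

lemma cont_comp {v : V → V} (hv : ContDiff ℝ ∞ v) (i : Fin 3) : Continuous (fun y => v y i) :=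
  (cd_comp hv i).continuous

lemma cont_nsq {v : V → V} (hv : ContDiff ℝ ∞ v) : Continuous (nsq v) := by
  unfold nsq
  exact continuous_finsetSum _ (fun i _ => (cont_comp hv i).pow 2)

lemma cont_adv {v : V → V} (hv : ContDiff ℝ ∞ v) {f : V → ℝ} (hf : ContDiff ℝ ∞ f) :
    Continuous (adv v f) := by
  unfold adv
  exact continuous_finsetSum _ (fun j _ => (cont_comp hv j).mul (cd_pd hf j).continuous)

lemma nsq_nonneg (v : V → V) (z : V) : 0 ≤ nsq v z :=
  Finset.sum_nonneg (fun _ _ => sq_nonneg _)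

lemma abs_comp_le (v : V → V) (z : V) (i : Fin 3) : |v z i| ≤ √(nsq v z) := by
  apply Real.abs_le_sqrt
  exact Finset.single_le_sum (f := fun i => v z i ^ 2) (fun _ _ => sq_nonneg _) (Finset.mem_univ i)

lemma adv_le (v : V → V) (f : V → ℝ) (z : V) (B : ℝ) (h : ∀ i, |pd i f z| ≤ B) :
    |adv v f z| ≤ 3 * B * √(nsq v z) := by
  unfold adv
  have hB : 0 ≤ B := (abs_nonneg _).trans (h 0)
  calc |∑ j, v z j * pd j f z| ≤ ∑ j, |v z j * pd j f z| := Finset.abs_sum_le_sum_abs _ _
    _ ≤ ∑ _j : Fin 3, √(nsq v z) * B := by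
        apply Finset.sum_le_sum
        intro j _
        rw [abs_mul]
        exact mul_le_mul (abs_comp_le v z j) (h j) (abs_nonneg _) (Real.sqrt_nonneg _)
    _ = 3 * B * √(nsq v z) := by simp; ring

/-- Cauchy-Schwarz. -/
lemma cs {μ : Measure V} (f g : V → ℝ) (hf : Integrable (fun x => f x ^ 2) μ)
    (hg : Integrable (fun x => g x ^ 2) μ) (hfg : Integrable (fun x => f x * g x) μ) :
    |∫ x, f x * g x ∂μ| ≤ √(∫ x, f x ^ 2 ∂μ) * √(∫ x, g x ^ 2 ∂μ) := by
  have hf0 : 0 ≤ ∫ x, f x ^ 2 ∂μ := integral_nonneg (fun _ => sq_nonneg _)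
  have hg0 : 0 ≤ ∫ x, g x ^ 2 ∂μ := integral_nonneg (fun _ => sq_nonneg _)
  have key : ∀ s : ℝ, 0 ≤ (∫ x, g x ^ 2 ∂μ) * (s * s) + (2 * ∫ x, f x * g x ∂μ) * s
      + ∫ x, f x ^ 2 ∂μ := by
    intro s
    have h1 : ∫ x, (f x + s * g x) ^ 2 ∂μ = (∫ x, g x ^ 2 ∂μ) * (s * s)
        + (2 * ∫ x, f x * g x ∂μ) * s + ∫ x, f x ^ 2 ∂μ := by
      have e : (fun x => (f x + s * g x) ^ 2)
          = fun x => (g x ^ 2 * (s * s) + (f x * g x) * (2 * s)) + f x ^ 2 := by
        funext x; ring
      have i1 := hg.mul_const (s * s)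
      have i2 := hfg.mul_const (2 * s)
      have e1 : ∫ x, (g x ^ 2 * (s * s) + (f x * g x) * (2 * s)) + f x ^ 2 ∂μ
          = ∫ x, (g x ^ 2 * (s * s) + (f x * g x) * (2 * s)) ∂μ + ∫ x, f x ^ 2 ∂μ :=
        integral_add (i1.add i2) hf
      have e2 : ∫ x, (g x ^ 2 * (s * s) + (f x * g x) * (2 * s)) ∂μ
          = ∫ x, g x ^ 2 * (s * s) ∂μ + ∫ x, (f x * g x) * (2 * s) ∂μ := integral_add i1 i2
      rw [e, e1, e2, integral_mul_const, integral_mul_const]
      ring
    rw [← h1]
    exact integral_nonneg (fun _ => sq_nonneg _)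
  have hd := discrim_le_zero key
  unfold discrim at hd
  rw [← Real.sqrt_mul hf0]
  apply Real.abs_le_sqrt
  nlinarith

lemma iob {f : V → ℝ} (hf : Continuous f) (a : V) (ρ : ℝ) : IntegrableOn f (ball a ρ) :=
  (hf.continuousOn.integrableOn_compact (isCompact_closedBall a ρ)).mono_set ball_subset_closedBall

lemma hcs {f : V → ℝ} {a : V} {ρ : ℝ} (h : ∀ z ∉ ball a ρ, f z = 0) : HasCompactSupport f :=
  HasCompactSupport.intro (isCompact_closedBall a ρ)
    (fun x hx => h x (fun h' => hx (ball_subset_closedBall h')))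

lemma pd_zero {φ : V → ℝ} (hφ : ContDiff ℝ ∞ φ) {a : V} {ρ : ℝ} (hρ : 0 < ρ)
    (h0 : ∀ z ∉ ball a ρ, φ z = 0) (i : Fin 3) : ∀ z ∉ ball a ρ, pd i φ z = 0 := by
  have hc : IsClosed {x : V | pd i φ x = 0} := isClosed_eq (cd_pd hφ i).continuous continuous_const
  have hsub : (closedBall a ρ)ᶜ ⊆ {x : V | pd i φ x = 0} := by
    intro x hx
    have h1 : φ =ᶠ[nhds x] fun _ => 0 := by
      filter_upwards [isClosed_closedBall.isOpen_compl.mem_nhds hx] with y hy
      exact h0 y (fun h' => hy (ball_subset_closedBall h'))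
    show fderiv ℝ φ x (Pi.single i 1) = 0
    rw [h1.fderiv_eq]
    simp
  have h2 := hc.closure_subset_iff.2 hsub
  rw [closure_compl, interior_closedBall a hρ.ne'] at h2
  exact fun z hz => h2 hz

lemma adv_zero (v : V → V) {φ : V → ℝ} (hφ : ContDiff ℝ ∞ φ) {a : V} {ρ : ℝ} (hρ : 0 < ρ)
    (h0 : ∀ z ∉ ball a ρ, φ z = 0) : ∀ z ∉ ball a ρ, adv v φ z = 0 := by
  intro z hz
  unfold adv
  exact Finset.sum_eq_zero (fun j _ => by rw [pd_zero hφ hρ h0 j z hz, mul_zero])

/-- Integration by parts. -/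
lemma ibp {v : V → V} (hv : ContDiff ℝ ∞ v) (hdiv : ∀ x, ∑ i, pd i (fun y => v y i) x = 0)
    {f g : V → ℝ} (hf : ContDiff ℝ ∞ f) (hg : ContDiff ℝ ∞ g) (hc : HasCompactSupport g) :
    ∫ z, f z * adv v g z = -∫ z, g z * adv v f z := by
  have hfv : ∀ j, ContDiff ℝ ∞ (fun y => f y * v y j) := fun j => hf.mul (cd_comp hv j)
  have hcp : ∀ j, HasCompactSupport (pd j g) := by
    intro j
    exact hc.fderiv_apply ℝ _
  have e1 : ∀ j, ∫ z, (f z * v z j) * pd j g z = -∫ z, pd j (fun y => f y * v y j) z * g z := by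
    intro j
    unfold pd
    apply integral_mul_fderiv_eq_neg_fderiv_mul_of_integrable
    · exact ((cd_pd (hfv j) j).continuous.mul hg.continuous).integrable_of_hasCompactSupport
        hc.mul_left
    · exact ((hfv j).continuous.mul (cd_pd hg j).continuous).integrable_of_hasCompactSupport
        (hcp j).mul_left
    · exact ((hfv j).continuous.mul hg.continuous).integrable_of_hasCompactSupport hc.mul_left
    · exact fun x _ => (hfv j).differentiable (by simp) x
    · exact fun x _ => hg.differentiable (by simp) x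
  have e2 : ∀ j z, pd j (fun y => f y * v y j) z = pd j f z * v z j
      + f z * pd j (fun y => v y j) z := by
    intro j z
    unfold pd
    have h1 : DifferentiableAt ℝ f z := hf.differentiable (by simp) z
    have h2 : DifferentiableAt ℝ (fun y => v y j) z := (cd_comp hv j).differentiable (by simp) z
    rw [fderiv_fun_mul h1 h2]
    simp
    ring
  have e3 : ∫ z, f z * adv v g z = ∑ j, ∫ z, (f z * v z j) * pd j g z := by
    rw [← integral_finsetSum]
    · congr 1
      funext z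
      unfold adv
      rw [Finset.mul_sum]
      exact Finset.sum_congr rfl (fun j _ => by ring)
    · intro j _
      exact ((hfv j).continuous.mul (cd_pd hg j).continuous).integrable_of_hasCompactSupport
        (hcp j).mul_left
  rw [e3, Finset.sum_congr rfl (fun j _ => e1 j), Finset.sum_neg_distrib, ← integral_finsetSum]
  · congr 2
    funext z
    have : ∑ j, pd j (fun y => f y * v y j) z * g z
        = g z * adv v f z + f z * g z * ∑ j, pd j (fun y => v y j) z := by
      unfold adv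
      rw [Finset.mul_sum, Finset.mul_sum, ← Finset.sum_add_distrib]
      exact Finset.sum_congr rfl (fun j _ => by rw [e2]; ring)
    rw [this, hdiv z, mul_zero, add_zero]
  · intro j _
    exact ((cd_pd (hfv j) j).continuous.mul hg.continuous).integrable_of_hasCompactSupport
        hc.mul_left

/-- The flux of `f` through one test function. -/
lemma flux {v : V → V} (hv : ContDiff ℝ ∞ v) {f φ : V → ℝ} (hf : Continuous f)
    (hφ : ContDiff ℝ ∞ φ) {a : V} {ρ : ℝ} (hρ : 0 < ρ) (h0 : ∀ z ∉ ball a ρ, φ z = 0)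
    {B : ℝ} (hB : ∀ z i, |pd i φ z| ≤ B) :
    |∫ z, f z * adv v φ z| ≤ 3 * B * (√(∫ z in ball a ρ, f z ^ 2) * √(A2 a ρ v)) := by
  have hB0 : 0 ≤ B := (abs_nonneg _).trans (hB 0 0)
  have h1 : ∫ z, f z * adv v φ z = ∫ z in ball a ρ, f z * adv v φ z := by
    symm
    apply setIntegral_eq_integral_of_forall_compl_eq_zero
    intro z hz
    rw [adv_zero v hφ hρ h0 z hz, mul_zero]
  have hs : Continuous (fun z => √(nsq v z)) := (cont_nsq hv).sqrt
  rw [h1]
  calc |∫ z in ball a ρ, f z * adv v φ z| ≤ ∫ z in ball a ρ, |f z * adv v φ z| :=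
        abs_integral_le_integral_abs
    _ ≤ ∫ z in ball a ρ, 3 * B * (|f z| * √(nsq v z)) := by
        apply setIntegral_mono (iob (hf.mul (cont_adv hv hφ)).abs a ρ)
          (iob (continuous_const.mul (hf.abs.mul hs)) a ρ)
        intro z
        show |f z * adv v φ z| ≤ 3 * B * (|f z| * √(nsq v z))
        rw [abs_mul]
        calc |f z| * |adv v φ z| ≤ |f z| * (3 * B * √(nsq v z)) :=
              mul_le_mul_of_nonneg_left (adv_le v φ z B (hB z)) (abs_nonneg _)
          _ = 3 * B * (|f z| * √(nsq v z)) := by ring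
    _ = 3 * B * ∫ z in ball a ρ, |f z| * √(nsq v z) := integral_const_mul _ _
    _ ≤ 3 * B * (√(∫ z in ball a ρ, f z ^ 2) * √(A2 a ρ v)) := by
        apply mul_le_mul_of_nonneg_left _ (by positivity)
        have h2 := cs (μ := volume.restrict (ball a ρ)) (fun z => |f z|) (fun z => √(nsq v z))
          (iob (hf.abs.pow 2) a ρ) (iob (hs.pow 2) a ρ) (iob (hf.abs.mul hs) a ρ)
        have h3 : ∫ z in ball a ρ, √(nsq v z) ^ 2 = A2 a ρ v := by
          unfold A2
          congr 1
          funext z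
          exact Real.sq_sqrt (nsq_nonneg v z)
        have h4 : ∫ z in ball a ρ, |f z| ^ 2 = ∫ z in ball a ρ, f z ^ 2 := by
          congr 1
          funext z
          exact sq_abs _
        rw [h3, h4] at h2
        exact (le_abs_self _).trans h2

end Pool.Agent.W386.MD
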