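import Pool.Agent.W386.MD.PKb

open MeasureTheory Set Metric
open scoped ContDiff

namespace Pool.Agent.W386.MD

open H459R3.NS W221.NS

lemma hessbound {v : V → V} {q P Q : V → ℝ} {G C₀ CA CU : ℝ} (hS : Slice v q P G)
    (hC₀ : 0 < C₀) (hCA : 0 < CA) (hG : 0 ≤ G)
    (hA : ∀ g : V → ℝ, ContDiff ℝ ∞ g → ∀ (a : V) (ρ : ℝ), 0 < ρ →
      (∀ x ∈ ball a ρ, lap g x = 0) → ∀ z ∈ ball a (ρ / 2), ∀ i,
      pd i g z ^ 2 ≤ CA * (ρ ^ 5)⁻¹ * ∫ x in ball a ρ, g x ^ 2 ∧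
      ∀ j, pd i (pd j g) z ^ 2 ≤ CA * (ρ ^ 7)⁻¹ * ∫ x in ball a ρ, g x ^ 2)
    (hL : √(L4 0 1 v) ≤ CU * G) {a : V} (ha : a ∈ ball (0 : V) (1 / 4))
    (hQ : ContDiff ℝ ∞ Q) (hQe : ∀ x ∈ ball a (rr 3 / 2), -lap Q x = ddq v x)
    (hQn : ∫ x in ball a (rr 3), Q x ^ 2 ≤ C₀ * L4 a (rr 3) v) :
    ∀ z ∈ ball a (rr 5), ∀ i, |pd i (fun y => P y - Q y) z|
      ≤ √(CA * ((1 / 16) ^ 5)⁻¹ * (2 * (1 + C₀ * CU ^ 2))) * G := by
  have ha' : dist a 0 < 1 / 4 := mem_ball.1 ha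
  have b1 : ball a (1 / 16) ⊆ ball (0 : V) 1 := by
    apply ball_subset_ball'
    linarith
  have b2 : ball a (1 / 16) ⊆ ball a (rr 3) := ball_subset_ball (by norm_num [rr])
  have b3 : ball a (rr 3) ⊆ ball (0 : V) 1 := by
    apply ball_subset_ball'
    have : rr 3 = 1 / 8 := by norm_num [rr]
    rw [this]
    linarith
  have hd : ContDiff ℝ ∞ (fun y => P y - Q y) := hS.sP.sub hQ
  have hharm : ∀ x ∈ ball a (1 / 16), lap (fun y => P y - Q y) x = 0 := by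
    intro x hx
    rw [lap_sub' hS.sP hQ]
    have h1 := hS.eqP x (b1 hx)
    have h2 := hQe x (by
      have : rr 3 / 2 = 1 / 16 := by norm_num [rr]
      rw [this]
      exact hx)
    linarith
  have h3 : ∫ x in ball a (1 / 16), (P x - Q x) ^ 2 ≤ 2 * (1 + C₀ * CU ^ 2) * G ^ 2 := by
    have i1 := iob (hS.sP.continuous.pow 2) a (1 / 16)
    have i2 := iob (hQ.continuous.pow 2) a (1 / 16)
    have h4 : ∫ x in ball a (1 / 16), (P x - Q x) ^ 2
        ≤ ∫ x in ball a (1 / 16), (2 * P x ^ 2 + 2 * Q x ^ 2) := by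
      apply setIntegral_mono (iob (hd.continuous.pow 2) a _) ((i1.const_mul 2).add (i2.const_mul 2))
      intro x
      show (P x - Q x) ^ 2 ≤ 2 * P x ^ 2 + 2 * Q x ^ 2
      nlinarith [sq_nonneg (P x + Q x)]
    have h5 : ∫ x in ball a (1 / 16), (2 * P x ^ 2 + 2 * Q x ^ 2)
        = 2 * (∫ x in ball a (1 / 16), P x ^ 2) + 2 * (∫ x in ball a (1 / 16), Q x ^ 2) := by
      rw [← integral_const_mul, ← integral_const_mul]
      exact integral_add (i1.const_mul 2) (i2.const_mul 2)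
    have h6 : ∫ x in ball a (1 / 16), P x ^ 2 ≤ G ^ 2 :=
      (sq_mono hS.sP.continuous b1).trans hS.nP
    have h7 : ∫ x in ball a (1 / 16), Q x ^ 2 ≤ C₀ * (CU * G) ^ 2 := by
      refine (sq_mono hQ.continuous b2).trans (hQn.trans ?_)
      apply mul_le_mul_of_nonneg_left _ hC₀.le
      have h8 : L4 a (rr 3) v ≤ L4 0 1 v := L4_mono hS.sv b3
      have h9 : L4 0 1 v ≤ (CU * G) ^ 2 := by
        have := Real.sqrt_le_left (x := L4 0 1 v) ((Real.sqrt_nonneg _).trans hL)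
        exact this.1 hL
      exact h8.trans h9
    nlinarith
  intro z hz i
  have hz' : z ∈ ball a (1 / 16 / 2) := by
    have : rr 5 = 1 / 16 / 2 := by norm_num [rr]
    rwa [this] at hz
  have h10 := (hA _ hd a (1 / 16) (by norm_num) hharm z hz' i).1
  apply abs_le_of_sq_le_sq _ (mul_nonneg (Real.sqrt_nonneg _) hG)
  rw [mul_pow, Real.sq_sqrt (by positivity)]
  refine h10.trans ?_
  calc CA * ((1 / 16) ^ 5)⁻¹ * ∫ x in ball a (1 / 16), (P x - Q x) ^ 2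
      ≤ CA * ((1 / 16) ^ 5)⁻¹ * (2 * (1 + C₀ * CU ^ 2) * G ^ 2) :=
        mul_le_mul_of_nonneg_left h3 (by positivity)
    _ = CA * ((1 / 16) ^ 5)⁻¹ * (2 * (1 + C₀ * CU ^ 2)) * G ^ 2 := by ring

theorem t_PK (hR : S_RIESZ) (hA : S_HARM) (hH : S_HB) (hU : S_UNIT) (h1 : S_PK1) : S_PK := by
  obtain ⟨C₀, hC₀, hR⟩ := hR
  obtain ⟨CA, hCA, hA⟩ := hA
  obtain ⟨CH, hCH, hH⟩ := hH
  obtain ⟨CU, hCU, hU⟩ := hU
  intro M hM
  have hM0 : 0 < M := by linarith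
  obtain ⟨C₁, hC₁, h1⟩ := h1 C₀ M hC₀ hM0
  obtain ⟨D, hD⟩ : ∃ D, D = √(CA * ((1 / 16) ^ 5)⁻¹ * (2 * (1 + C₀ * CU ^ 2))) := ⟨_, rfl⟩
  have hD0 : 0 ≤ D := hD ▸ Real.sqrt_nonneg _
  refine ⟨3 * M + 2 * C₁ + 15 * (M * 16 ^ 4) * (CU + 2) + 6 * D * √M + 6 * CH * √M,
    by positivity, ?_⟩
  intro v q P G hS a ha K φ hφ hpos hout hint
  have ha' : dist a 0 < 1 / 4 := mem_ball.1 ha
  have hv := hS.sv
  have hG : 0 ≤ G := by
    refine le_trans ?_ hS.grad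
    unfold B2
    exact integral_nonneg (fun z => Finset.sum_nonneg (fun _ _ => Finset.sum_nonneg
      (fun _ _ => sq_nonneg _)))
  have hL : √(L4 0 1 v) ≤ CU * G := (hU v hv hS.mean).trans
    (mul_le_mul_of_nonneg_left hS.grad hCU.le)
  have hr2 : rr 2 = 1 / 4 := by norm_num [rr]
  have binc : ∀ k ∈ K, ball a (rr k) ⊆ ball a (rr 2) := fun k hk =>
    ball_subset_ball (rr_anti (hφ k hk).1)
  have b34 : ball a (rr 2) ⊆ ball (0 : V) (3 / 4) := by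
    apply ball_subset_ball'
    rw [hr2]
    linarith
  have b1 : ball a (rr 2) ⊆ ball (0 : V) 1 := by
    apply ball_subset_ball'
    rw [hr2]
    linarith
  obtain ⟨Φ, hΦe⟩ : ∃ Φ : V → ℝ, Φ = fun y => ∑ k ∈ K, φ k y := ⟨_, rfl⟩
  obtain ⟨Ψ, hΨe⟩ : ∃ Ψ : V → ℝ, Ψ = fun y => ∑ k ∈ K.filter (fun k => 5 ≤ k), φ k y := ⟨_, rfl⟩
  have hΦ : ContDiff ℝ ∞ Φ := hΦe ▸ ContDiff.sum (fun k hk => (hφ k hk).2.1)
  have hΨ : ContDiff ℝ ∞ Ψ := hΨe ▸ ContDiff.sum (fun k hk =>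
    (hφ k (Finset.mem_of_mem_filter k hk)).2.1)
  have hΦ0 : ∀ z, 0 ≤ Φ z := fun z => by rw [hΦe]; exact hpos z
  have hΨ0 : ∀ z, |Ψ z| ≤ Φ z := fun z => by rw [hΦe, hΨe]; exact hout z
  have hΦz : ∀ z ∉ ball a (rr 2), Φ z = 0 := by
    intro z hz
    rw [hΦe]
    exact Finset.sum_eq_zero (fun k hk => (hφ k hk).2.2.1 z (fun h => hz (binc k hk h)))
  have hΨz : ∀ z ∉ ball a (rr 5), Ψ z = 0 := by
    intro z hz
    rw [hΨe]
    refine Finset.sum_eq_zero (fun k hk => ?_)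
    have hk' := Finset.mem_filter.1 hk
    exact (hφ k hk'.1).2.2.1 z (fun h => hz (ball_subset_ball (rr_anti hk'.2) h))
  have hΦc : HasCompactSupport Φ := hcs hΦz
  have hΨc : HasCompactSupport Ψ := hcs hΨz
  have hint' : ∫ z, Φ z ≤ M := by rw [hΦe]; exact hint
  obtain ⟨W, hW⟩ : ∃ W, W = √(∫ z, nsq v z * Φ z) := ⟨_, rfl⟩
  obtain ⟨A, hAe⟩ : ∃ A, A = √(A2 0 (3 / 4) v) := ⟨_, rfl⟩
  have hW0 : 0 ≤ W := hW ▸ Real.sqrt_nonneg _
  have hA0 : 0 ≤ A := hAe ▸ Real.sqrt_nonneg _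
  -- the potentials
  choose Q hQ using fun j : ℕ => hR v hv a (rr j) (rr_pos j)
  -- term 3
  have T3 : |∫ z, (q z - P z) * adv v Φ z| ≤ 3 * (CH * (√G + G)) * (√M * W) := by
    have hqP : ContDiff ℝ ∞ (fun y => q y - P y) := hS.sq.sub hS.sP
    rw [ibp hv hS.div hqP hΦ hΦc, abs_neg, hW]
    apply wt hv hΦ.continuous hΦ0 hΦc hΦ.continuous (fun z => (abs_of_nonneg (hΦ0 z)).le)
      (cont_adv hv hqP) (by positivity) _ hint'
    intro z hz
    apply adv_le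
    intro i
    apply hH v q P G hS z _ i
    by_contra h
    exact hz (hΦz z (fun h' => h (b1 h')))
  -- term 4
  have T4 : |∫ z, (P z - Q 3 z) * adv v Ψ z| ≤ 3 * (D * G) * (√M * W) := by
    have hPQ : ContDiff ℝ ∞ (fun y => P y - Q 3 y) := hS.sP.sub (hQ 3).1
    rw [ibp hv hS.div hPQ hΨ hΨc, abs_neg, hW]
    apply wt hv hΦ.continuous hΦ0 hΦc hΨ.continuous hΨ0 (cont_adv hv hPQ) (by positivity) _ hint'
    intro z hz
    apply adv_le
    intro i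
    rw [hD]
    apply hessbound hS hC₀ hCA hG hA hL ha (hQ 3).1 (hQ 3).2.1 (hQ 3).2.2
    by_contra h
    exact hz (hΨz z h)
  -- the sums
  have hcK : ∀ k ∈ K, HasCompactSupport (φ k) := fun k hk => hcs (hφ k hk).2.2.1
  have hsK : ∀ k ∈ K, ContDiff ℝ ∞ (φ k) := fun k hk => (hφ k hk).2.1
  have hcard : (K.filter (fun k => ¬ 5 ≤ k)).card ≤ 5 := by
    have : K.filter (fun k => ¬ 5 ≤ k) ⊆ Finset.range 5 := by
      intro k hk
      have := (Finset.mem_filter.1 hk).2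
      exact Finset.mem_range.2 (by omega)
    exact (Finset.card_le_card this).trans (by simp)
  have hcard' : ((K.filter (fun k => ¬ 5 ≤ k)).card : ℝ) ≤ 5 := by exact_mod_cast hcard
  -- generic bound for the large scales
  have big : ∀ f : V → ℝ, Continuous f → ∀ B : ℝ, √(∫ z in ball (0 : V) 1, f z ^ 2) ≤ B →
      |∑ k ∈ K.filter (fun k => ¬ 5 ≤ k), ∫ z, f z * adv v (φ k) z|
        ≤ 5 * (3 * (M * 16 ^ 4) * (B * A)) := by
    intro f hf B hB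
    have hB0 : 0 ≤ B := (Real.sqrt_nonneg _).trans hB
    have h2 : ∀ k ∈ K.filter (fun k => ¬ 5 ≤ k), |∫ z, f z * adv v (φ k) z|
        ≤ 3 * (M * 16 ^ 4) * (B * A) := by
      intro k hk
      have hk' := Finset.mem_filter.1 hk
      refine (flux hv hf (hφ k hk'.1).2.1 (rr_pos k) (hφ k hk'.1).2.2.1
        (hφ k hk'.1).2.2.2.2).trans ?_
      have e1 : √(∫ z in ball a (rr k), f z ^ 2) ≤ B :=
        (Real.sqrt_le_sqrt (sq_mono hf ((binc k hk'.1).trans b1))).trans hB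
      have e2 : √(A2 a (rr k) v) ≤ A := by
        rw [hAe]
        exact Real.sqrt_le_sqrt (A2_mono hv ((binc k hk'.1).trans b34))
      have e3 : (16 : ℝ) ^ k ≤ 16 ^ 4 := pow_le_pow_right₀ (by norm_num) (by omega)
      have e4 : 3 * (M * 16 ^ k) ≤ 3 * (M * 16 ^ 4) := by nlinarith
      exact mul_le_mul e4 (mul_le_mul e1 e2 (Real.sqrt_nonneg _) hB0)
        (mul_nonneg (Real.sqrt_nonneg _) (Real.sqrt_nonneg _)) (by positivity)
    calc |∑ k ∈ K.filter (fun k => ¬ 5 ≤ k), ∫ z, f z * adv v (φ k) z|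
        ≤ ∑ k ∈ K.filter (fun k => ¬ 5 ≤ k), |∫ z, f z * adv v (φ k) z| :=
          Finset.abs_sum_le_sum_abs _ _
      _ ≤ (K.filter (fun k => ¬ 5 ≤ k)).card • (3 * (M * 16 ^ 4) * (B * A)) :=
          Finset.sum_le_card_nsmul _ _ _ h2
      _ = (K.filter (fun k => ¬ 5 ≤ k)).card * (3 * (M * 16 ^ 4) * (B * A)) := by
          rw [nsmul_eq_mul]
      _ ≤ 5 * (3 * (M * 16 ^ 4) * (B * A)) :=
          mul_le_mul_of_nonneg_right hcard' (by positivity)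
  obtain ⟨S, hSe⟩ : ∃ S, S = ∑ k ∈ K.filter (fun k => 5 ≤ k), √(A2 a (rr k) v) * PS a v k :=
    ⟨_, rfl⟩
  have hPS : ∀ k, 16 ^ k * √(L4 a (rr (k - 2)) v) ≤ PS a v k := by
    intro k
    unfold PS
    have : 0 ≤ ∑ j ∈ Finset.Ico 3 (k - 2), √(32 ^ j) * √(8 ^ k) * √(L4 a (rr j) v) :=
      Finset.sum_nonneg (fun _ _ => by positivity)
    linarith
  have hS0 : 0 ≤ S := by
    rw [hSe]
    refine Finset.sum_nonneg (fun k _ => mul_nonneg (Real.sqrt_nonneg _) ?_)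
    exact le_trans (by positivity) (hPS k)
  -- small scales, cubic term
  have T1s : |∑ k ∈ K.filter (fun k => 5 ≤ k), ∫ z, nsq v z * adv v (φ k) z| ≤ 3 * M * S := by
    refine (Finset.abs_sum_le_sum_abs _ _).trans ?_
    rw [hSe, Finset.mul_sum]
    apply Finset.sum_le_sum
    intro k hk
    have hk' := Finset.mem_filter.1 hk
    have h2 := flux hv (cont_nsq hv) (hφ k hk'.1).2.1 (rr_pos k) (hφ k hk'.1).2.2.1
        (hφ k hk'.1).2.2.2.2
    have h3 : √(∫ z in ball a (rr k), nsq v z ^ 2) ≤ √(L4 a (rr (k - 2)) v) :=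
      Real.sqrt_le_sqrt (L4_mono hv (ball_subset_ball (rr_anti (by omega))))
    calc |∫ z, nsq v z * adv v (φ k) z|
        ≤ 3 * (M * 16 ^ k) * (√(∫ z in ball a (rr k), nsq v z ^ 2) * √(A2 a (rr k) v)) := h2
      _ ≤ 3 * (M * 16 ^ k) * (√(L4 a (rr (k - 2)) v) * √(A2 a (rr k) v)) := by gcongr
      _ = 3 * M * (√(A2 a (rr k) v) * (16 ^ k * √(L4 a (rr (k - 2)) v))) := by ring
      _ ≤ 3 * M * (√(A2 a (rr k) v) * PS a v k) := by
          apply mul_le_mul_of_nonneg_left _ (by positivity)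
          exact mul_le_mul_of_nonneg_left (hPS k) (Real.sqrt_nonneg _)
  -- small scales, pressure
  have T2s : |∑ k ∈ K.filter (fun k => 5 ≤ k), ∫ z, Q 3 z * adv v (φ k) z| ≤ C₁ * S := by
    refine (Finset.abs_sum_le_sum_abs _ _).trans ?_
    rw [hSe, Finset.mul_sum]
    apply Finset.sum_le_sum
    intro k hk
    have hk' := Finset.mem_filter.1 hk
    have h2 := h1 v hv hS.div a Q hQ k hk'.2 (φ k) (hφ k hk'.1).2.1 (hφ k hk'.1).2.2.1
      (hφ k hk'.1).2.2.2.1 (hφ k hk'.1).2.2.2.2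
    rw [← mul_assoc]
    exact h2
  have split : ∀ f : V → ℝ, Continuous f → ∫ z, f z * adv v Φ z
      = ∑ k ∈ K.filter (fun k => 5 ≤ k), (∫ z, f z * adv v (φ k) z)
        + ∑ k ∈ K.filter (fun k => ¬ 5 ≤ k), (∫ z, f z * adv v (φ k) z) := by
    intro f hf
    rw [hΦe, int_sum hv K φ hsK hcK hf, Finset.sum_filter_add_sum_filter_not]
  have splitΨ : ∀ f : V → ℝ, Continuous f → ∫ z, f z * adv v Ψ z
      = ∑ k ∈ K.filter (fun k => 5 ≤ k), (∫ z, f z * adv v (φ k) z) := by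
    intro f hf
    rw [hΨe, int_sum hv _ φ (fun k hk => hsK k (Finset.mem_of_mem_filter k hk))
      (fun k hk => hcK k (Finset.mem_of_mem_filter k hk)) hf]
  have iadv : ∀ {f g : V → ℝ}, Continuous f → ContDiff ℝ ∞ g → ∀ {b : V} {ρ : ℝ}, 0 < ρ →
      (∀ z ∉ ball b ρ, g z = 0) → Integrable (fun z => f z * adv v g z) := by
    intro f g hf hg b ρ hρ h0
    exact (hf.mul (cont_adv hv hg)).integrable_of_hasCompactSupport
      (hcs (adv_zero v hg hρ h0)).mul_left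
  -- cubic term
  have T1 : |∫ z, nsq v z * adv v Φ z| ≤ 3 * M * S + 5 * (3 * (M * 16 ^ 4) * (CU * G * A)) := by
    rw [split _ (cont_nsq hv)]
    exact (abs_add_le _ _).trans (add_le_add T1s (big _ (cont_nsq hv) (CU * G) hL))
  -- pressure term
  have T2 : |∫ z, P z * adv v Φ z| ≤ C₁ * S + 3 * (D * G) * (√M * W)
      + 5 * (3 * (M * 16 ^ 4) * (G * A)) := by
    have hPc := hS.sP.continuous
    have hQc := (hQ 3).1.continuous
    have e1 : ∑ k ∈ K.filter (fun k => 5 ≤ k), (∫ z, P z * adv v (φ k) z)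
        = ∑ k ∈ K.filter (fun k => 5 ≤ k), (∫ z, Q 3 z * adv v (φ k) z)
          + ∫ z, (P z - Q 3 z) * adv v Ψ z := by
      have j1 : Integrable (fun z => Q 3 z * adv v Ψ z) := iadv hQc hΨ (rr_pos 5) hΨz
      have j2 : Integrable (fun z => (P z - Q 3 z) * adv v Ψ z) :=
        iadv (f := fun z => P z - Q 3 z) (hPc.sub hQc) hΨ (rr_pos 5) hΨz
      rw [← splitΨ _ hPc, ← splitΨ _ hQc, ← integral_add j1 j2]
      congr 1
      funext z
      ring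
    have hn : √(∫ x in ball (0 : V) 1, P x ^ 2) ≤ G := by
      have := Real.sqrt_le_sqrt hS.nP
      rwa [Real.sqrt_sq hG] at this
    rw [split _ hPc, e1]
    exact (abs_add_le _ _).trans (add_le_add ((abs_add_le _ _).trans (add_le_add T2s T4))
      (big _ hPc G hn))
  -- conclusion
  have i1 : Integrable (fun z => nsq v z * adv v Φ z) := iadv (cont_nsq hv) hΦ (rr_pos 2) hΦz
  have i2 : Integrable (fun z => 2 * (P z * adv v Φ z)) :=
    (iadv hS.sP.continuous hΦ (rr_pos 2) hΦz).const_mul 2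
  have i3 : Integrable (fun z => 2 * ((q z - P z) * adv v Φ z)) :=
    (iadv (f := fun z => q z - P z) (hS.sq.continuous.sub hS.sP.continuous) hΦ (rr_pos 2)
      hΦz).const_mul 2
  have e0 : ∫ z, (nsq v z + 2 * q z) * adv v Φ z = (∫ z, nsq v z * adv v Φ z)
      + 2 * (∫ z, P z * adv v Φ z) + 2 * (∫ z, (q z - P z) * adv v Φ z) := by
    calc ∫ z, (nsq v z + 2 * q z) * adv v Φ z
        = ∫ z, ((nsq v z * adv v Φ z + 2 * (P z * adv v Φ z))
          + 2 * ((q z - P z) * adv v Φ z)) := by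
          congr 1
          funext z
          ring
      _ = (∫ z, (nsq v z * adv v Φ z + 2 * (P z * adv v Φ z)))
          + ∫ z, 2 * ((q z - P z) * adv v Φ z) := integral_add (i1.add i2) i3
      _ = _ := by
          rw [integral_add i1 i2, integral_const_mul, integral_const_mul]
  have hgoal : (∫ z, (nsq v z + 2 * q z) * adv v (fun y => ∑ k ∈ K, φ k y) z)
      = ∫ z, (nsq v z + 2 * q z) * adv v Φ z := by rw [hΦe]
  have hW' : √(∫ z, nsq v z * ∑ k ∈ K, φ k z) = W := by rw [hW, hΦe]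
  rw [hgoal, hW', ← hAe, ← hSe, e0]
  have hGs : G ≤ √G + G := by linarith [Real.sqrt_nonneg G]
  have hx : 0 ≤ G * A := mul_nonneg hG hA0
  have hy : 0 ≤ (√G + G) * W := mul_nonneg (by positivity) hW0
  have hxy : G * W ≤ (√G + G) * W := mul_le_mul_of_nonneg_right hGs hW0
  have tri : |(∫ z, nsq v z * adv v Φ z) + 2 * (∫ z, P z * adv v Φ z)
      + 2 * (∫ z, (q z - P z) * adv v Φ z)| ≤ |∫ z, nsq v z * adv v Φ z|
      + 2 * |∫ z, P z * adv v Φ z| + 2 * |∫ z, (q z - P z) * adv v Φ z| := by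
    refine (abs_add_le _ _).trans (add_le_add ((abs_add_le _ _).trans (add_le_add le_rfl ?_)) ?_)
    · rw [abs_mul, abs_of_pos (by norm_num : (0 : ℝ) < 2)]
    · rw [abs_mul, abs_of_pos (by norm_num : (0 : ℝ) < 2)]
  refine tri.trans ?_
  obtain ⟨c₁, hc₁⟩ : ∃ c, c = 3 * M + 2 * C₁ := ⟨_, rfl⟩
  obtain ⟨c₂, hc₂⟩ : ∃ c, c = 15 * (M * 16 ^ 4) * (CU + 2) := ⟨_, rfl⟩
  obtain ⟨c₃, hc₃⟩ : ∃ c, c = 6 * D * √M := ⟨_, rfl⟩
  obtain ⟨c₄, hc₄⟩ : ∃ c, c = 6 * CH * √M := ⟨_, rfl⟩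
  have p₁ : 0 ≤ c₁ := by rw [hc₁]; positivity
  have p₂ : 0 ≤ c₂ := by rw [hc₂]; positivity
  have p₃ : 0 ≤ c₃ := by rw [hc₃]; positivity
  have p₄ : 0 ≤ c₄ := by rw [hc₄]; positivity
  have f₁ : |∫ z, nsq v z * adv v Φ z| + 2 * |∫ z, P z * adv v Φ z|
      + 2 * |∫ z, (q z - P z) * adv v Φ z|
      ≤ c₁ * S + c₂ * (G * A) + c₃ * (G * W) + c₄ * ((√G + G) * W) := by
    rw [hc₁, hc₂, hc₃, hc₄]
    have e : (3 * M + 2 * C₁) * S + 15 * (M * 16 ^ 4) * (CU + 2) * (G * A) + 6 * D * √M * (G * W)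
        + 6 * CH * √M * ((√G + G) * W)
        = (3 * M * S + 5 * (3 * (M * 16 ^ 4) * (CU * G * A)))
          + 2 * (C₁ * S + 3 * (D * G) * (√M * W) + 5 * (3 * (M * 16 ^ 4) * (G * A)))
          + 2 * (3 * (CH * (√G + G)) * (√M * W)) := by ring
    rw [e]
    linarith
  refine f₁.trans ?_
  have f₂ : c₃ * (G * W) ≤ c₃ * ((√G + G) * W) := mul_le_mul_of_nonneg_left hxy p₃
  have q1 := mul_nonneg p₁ hx
  have q2 := mul_nonneg p₁ hy
  have q3 := mul_nonneg p₂ hy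
  have q4 := mul_nonneg p₂ hS0
  have q5 := mul_nonneg p₃ hx
  have q6 := mul_nonneg p₃ hS0
  have q7 := mul_nonneg p₄ hx
  have q8 := mul_nonneg p₄ hS0
  have e9 : (c₁ + c₂ + c₃ + c₄) * (G * A + (√G + G) * W + S)
      = (c₁ * (G * A) + c₁ * ((√G + G) * W) + c₁ * S) + (c₂ * (G * A) + c₂ * ((√G + G) * W) + c₂ * S)
        + (c₃ * (G * A) + c₃ * ((√G + G) * W) + c₃ * S)
        + (c₄ * (G * A) + c₄ * ((√G + G) * W) + c₄ * S) := by ring
  have e10 : 3 * M + 2 * C₁ + 15 * (M * 16 ^ 4) * (CU + 2) + 6 * D * √M + 6 * CH * √M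
      = c₁ + c₂ + c₃ + c₄ := by rw [hc₁, hc₂, hc₃, hc₄]
  rw [e10, e9]
  linarith

end Pool.Agent.W386.MD
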