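import Pool.Agent.W386.MD.PKa

open MeasureTheory Set Metric
open scoped ContDiff

namespace Pool.Agent.W386.MD

open H459R3.NS W221.NS


lemma wt {v : V → V} (hv : ContDiff ℝ ∞ v) {Φ Ψ F : V → ℝ} (hΦ : Continuous Φ)
    (hΦ0 : ∀ z, 0 ≤ Φ z) (hc : HasCompactSupport Φ) (hΨ : Continuous Ψ)
    (hΨ' : ∀ z, |Ψ z| ≤ Φ z) (hF : Continuous F) {B : ℝ} (hB0 : 0 ≤ B)
    (hB : ∀ z, Ψ z ≠ 0 → |F z| ≤ B * √(nsq v z)) {M : ℝ} (hM : ∫ z, Φ z ≤ M) :
    |∫ z, Ψ z * F z| ≤ B * (√M * √(∫ z, nsq v z * Φ z)) := by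
  have hs : Continuous (fun z => √(nsq v z)) := (cont_nsq hv).sqrt
  have hcΨ : HasCompactSupport Ψ := by
    apply hc.mono
    intro z hz h0
    apply hz
    have := hΨ' z
    rw [h0] at this
    exact abs_eq_zero.1 (le_antisymm this (abs_nonneg _))
  have hcs : HasCompactSupport (fun z => √(Φ z)) := hc.comp_left (g := Real.sqrt) Real.sqrt_zero
  have i1 : Integrable (fun z => √(Φ z) * (√(Φ z) * √(nsq v z))) :=
    (hΦ.sqrt.mul (hΦ.sqrt.mul hs)).integrable_of_hasCompactSupport hcs.mul_right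
  calc |∫ z, Ψ z * F z| ≤ ∫ z, |Ψ z * F z| := abs_integral_le_integral_abs
    _ ≤ ∫ z, B * (√(Φ z) * (√(Φ z) * √(nsq v z))) := by
        apply integral_mono
          ((hΨ.mul hF).integrable_of_hasCompactSupport hcΨ.mul_right).abs (i1.const_mul B)
        intro z
        show |Ψ z * F z| ≤ B * (√(Φ z) * (√(Φ z) * √(nsq v z)))
        have e : √(Φ z) * (√(Φ z) * √(nsq v z)) = Φ z * √(nsq v z) := by
          rw [← mul_assoc, Real.mul_self_sqrt (hΦ0 z)]
        rw [e, abs_mul]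
        by_cases h : Ψ z = 0
        · rw [h, abs_zero, zero_mul]
          exact mul_nonneg hB0 (mul_nonneg (hΦ0 z) (Real.sqrt_nonneg _))
        · calc |Ψ z| * |F z| ≤ Φ z * (B * √(nsq v z)) :=
                mul_le_mul (hΨ' z) (hB z h) (abs_nonneg _) (hΦ0 z)
            _ = B * (Φ z * √(nsq v z)) := by ring
    _ = B * ∫ z, √(Φ z) * (√(Φ z) * √(nsq v z)) := integral_const_mul _ _
    _ ≤ B * (√M * √(∫ z, nsq v z * Φ z)) := by
        apply mul_le_mul_of_nonneg_left _ hB0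
        have e1 : (fun z => √(Φ z) ^ 2) = Φ := by
          funext z
          exact Real.sq_sqrt (hΦ0 z)
        have e2 : (fun z => (√(Φ z) * √(nsq v z)) ^ 2) = fun z => nsq v z * Φ z := by
          funext z
          rw [mul_pow, Real.sq_sqrt (hΦ0 z), Real.sq_sqrt (nsq_nonneg v z), mul_comm]
        have i2 : Integrable (fun z => √(Φ z) ^ 2) := by
          rw [e1]
          exact hΦ.integrable_of_hasCompactSupport hc
        have i3 : Integrable (fun z => (√(Φ z) * √(nsq v z)) ^ 2) := by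
          rw [e2]
          exact ((cont_nsq hv).mul hΦ).integrable_of_hasCompactSupport hc.mul_left
        have h2 := cs (μ := volume) (fun z => √(Φ z)) (fun z => √(Φ z) * √(nsq v z)) i2 i3 i1
        rw [e1, e2] at h2
        exact (le_abs_self _).trans (h2.trans
          (mul_le_mul_of_nonneg_right (Real.sqrt_le_sqrt hM) (Real.sqrt_nonneg _)))

lemma pd_sub' {f g : V → ℝ} (hf : ContDiff ℝ ∞ f) (hg : ContDiff ℝ ∞ g) (j : Fin 3) :
    pd j (fun y => f y - g y) = fun y => pd j f y - pd j g y := by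
  funext y
  unfold pd
  rw [fderiv_fun_sub (hf.differentiable (by simp) y) (hg.differentiable (by simp) y)]
  simp

lemma lap_sub' {f g : V → ℝ} (hf : ContDiff ℝ ∞ f) (hg : ContDiff ℝ ∞ g) (x : V) :
    lap (fun y => f y - g y) x = lap f x - lap g x := by
  unfold lap
  rw [← Finset.sum_sub_distrib]
  refine Finset.sum_congr rfl (fun j _ => ?_)
  rw [pd_sub' hf hg, pd_sub' (cd_pd hf j) (cd_pd hg j)]

lemma adv_sum (v : V → V) (K : Finset ℕ) (φ : ℕ → V → ℝ) (hφ : ∀ k ∈ K, ContDiff ℝ ∞ (φ k))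
    (z : V) : adv v (fun y => ∑ k ∈ K, φ k y) z = ∑ k ∈ K, adv v (φ k) z := by
  unfold adv
  rw [Finset.sum_comm]
  refine Finset.sum_congr rfl (fun j _ => ?_)
  rw [← Finset.mul_sum]
  congr 1
  unfold pd
  rw [fderiv_fun_sum (fun k hk => (hφ k hk).differentiable (by simp) z)]
  simp

lemma int_sum {v : V → V} (hv : ContDiff ℝ ∞ v) (K : Finset ℕ) (φ : ℕ → V → ℝ)
    (hφ : ∀ k ∈ K, ContDiff ℝ ∞ (φ k)) (hc : ∀ k ∈ K, HasCompactSupport (φ k))
    {f : V → ℝ} (hf : Continuous f) :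
    ∫ z, f z * adv v (fun y => ∑ k ∈ K, φ k y) z = ∑ k ∈ K, ∫ z, f z * adv v (φ k) z := by
  rw [← integral_finsetSum]
  · congr 1
    funext z
    rw [adv_sum v K φ hφ, Finset.mul_sum]
  · intro k hk
    apply (hf.mul (cont_adv hv (hφ k hk))).integrable_of_hasCompactSupport
    apply HasCompactSupport.mul_left
    have h1 : ∀ j, HasCompactSupport (pd j (φ k)) := fun j => (hc k hk).fderiv_apply ℝ _
    have h2 : ∀ j, HasCompactSupport (fun z => v z j * pd j (φ k) z) := fun j => (h1 j).mul_left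
    have e : adv v (φ k) = fun z => v z 0 * pd 0 (φ k) z + v z 1 * pd 1 (φ k) z
        + v z 2 * pd 2 (φ k) z := by
      funext z
      simp [adv, Fin.sum_univ_three]
    rw [e]
    exact ((h2 0).add (h2 1)).add (h2 2)

lemma L4_mono {v : V → V} (hv : ContDiff ℝ ∞ v) {a b : V} {ρ σ : ℝ}
    (h : ball a ρ ⊆ ball b σ) : L4 a ρ v ≤ L4 b σ v := by
  unfold L4
  apply setIntegral_mono_set (iob ((cont_nsq hv).pow 2) b σ)
  · exact Filter.Eventually.of_forall (fun _ => sq_nonneg _)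
  · exact h.eventuallyLE

lemma A2_mono {v : V → V} (hv : ContDiff ℝ ∞ v) {a b : V} {ρ σ : ℝ}
    (h : ball a ρ ⊆ ball b σ) : A2 a ρ v ≤ A2 b σ v := by
  unfold A2
  apply setIntegral_mono_set (iob (cont_nsq hv) b σ)
  · exact Filter.Eventually.of_forall (fun _ => nsq_nonneg _ _)
  · exact h.eventuallyLE

lemma sq_mono {f : V → ℝ} (hf : Continuous f) {a b : V} {ρ σ : ℝ}
    (h : ball a ρ ⊆ ball b σ) : ∫ z in ball a ρ, f z ^ 2 ≤ ∫ z in ball b σ, f z ^ 2 := by
  apply setIntegral_mono_set (iob (hf.pow 2) b σ)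
  · exact Filter.Eventually.of_forall (fun _ => sq_nonneg _)
  · exact h.eventuallyLE

lemma rr_pos (k : ℕ) : 0 < rr k := by unfold rr; positivity

lemma rr_anti {j k : ℕ} (h : j ≤ k) : rr k ≤ rr j := by
  unfold rr
  exact pow_le_pow_of_le_one (by norm_num) (by norm_num) h

end Pool.Agent.W386.MD
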